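import Pool.Agent.V1129.Irr3

set_option autoImplicit false

/-!
MP_e825aa_al, Q1: there is a faithful irreducible coset space `G/H` of a (countable, metrizable)
topological group `G` such that `G` has infinitely many minimal nontrivial closed normal subgroups.
-/

namespace Pool.Agent.Results.MP_e825aa_al.InfinitelyMany

open Pool.Agent.V1129.Irr

theorem result : ∃ (G : Type) (_ : Group G) (_ : TopologicalSpace G) (_ : IsTopologicalGroup G)
    (H : Subgroup G), Countable G ∧ TopologicalSpace.MetrizableSpace G ∧
      FaithfulIrreducible G H ∧ {M : Subgroup G | MinimalClosedNormal G M}.Infinite := by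
  refine ⟨GG, inferInstance, inferInstance, inferInstance, HH, inferInstance, inferInstance,
    GG_faithful, ?_⟩
  refine Set.infinite_of_injective_forall_mem (f := MM) ?_ fun i => MM_minimal i
  intro i j h
  by_contra hij
  have h1 := MM_disjoint hij
  rw [h, inf_idem] at h1
  exact MM_ne_bot j h1

end Pool.Agent.Results.MP_e825aa_al.InfinitelyMany
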